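import Pool.Agent.L0h26.CK.Fin
import Pool.Agent.L0h91.JB.RB
import Pool.Agent.L0h91.JB.BAL
import Pool.Agent.L0h83.JB.RP2
import Pool.Agent.L0h83.JB.EV
import Pool.Agent.L0h9.JB.Low
import Pool.Agent.L0h9.JB.Ev2

/-!
# Judicious bipartitions of `K_{k+1}`-free `k`-regular graphs: the constants `d_k`
-/

set_option autoImplicit false

namespace Pool.Agent.Results.MP_bb98d0_co.JudiciousBipartitions

open Finset

open Classical in
/-- `e(G)`: the number of edges -/
noncomputable def numEdges {V : Type} [Fintype V] (G : SimpleGraph V) : ℕ :=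
  G.edgeFinset.card

open Classical in
/-- `e(S)`: the number of edges with both ends in `S` -/
noncomputable def inside {V : Type} [Fintype V] (G : SimpleGraph V) (S : Finset V) : ℕ :=
  (G.edgeFinset.filter (fun e => ∀ v ∈ e, v ∈ S)).card

open Classical in
/-- `g(G)`: the least value of `max (e(V₁), e(V₂))` over all bipartitions `V = V₁ ∪ V₂` -/
noncomputable def judicious {V : Type} [Fintype V] (G : SimpleGraph V) : ℕ :=
  (univ : Finset (Finset V)).inf' ⟨∅, mem_univ _⟩ fun S => max (inside G S) (inside G Sᶜ)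

open Classical in
/-- `k`-regular, no `K_{k+1}`, at least one edge -/
def InClass (k : ℕ) {V : Type} [Fintype V] (G : SimpleGraph V) : Prop :=
  G.IsRegularOfDegree k ∧ G.CliqueFree (k + 1) ∧ 0 < numEdges G

/-- all values `g(G) / e(G)` over the class -/
def ratios (k : ℕ) : Set ℝ :=
  {r | ∃ (V : Type) (_ : Fintype V) (G : SimpleGraph V),
    InClass k G ∧ r = (judicious G : ℝ) / (numEdges G : ℝ)}

/-- the constant `d_k` -/
noncomputable def d (k : ℕ) : ℝ := sSup (ratios k)

/-- the values `g(G) / e(G)` over the graphs of the class whose order is even or at least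
`3 (k + 1)` -/
def ratiosEL (k : ℕ) : Set ℝ :=
  {r | ∃ (V : Type) (_ : Fintype V) (G : SimpleGraph V), InClass k G ∧
    (Even (Fintype.card V) ∨ 3 * (k + 1) ≤ Fintype.card V) ∧
    r = (judicious G : ℝ) / (numEdges G : ℝ)}

/-- the value -/
noncomputable def val (k : ℕ) : ℝ :=
  if Even k then (3 * (k : ℝ) - 4) * (k + 2) / (12 * k * (k + 1))
  else 1 / 4 - (3 * (k : ℝ) + 11) / (12 * k * (k + 1))

/-- For every `k ≥ 1000` the largest value of `g(G) / e(G)` over the graphs of the class whose
order is even or at least `3 (k + 1)` is `val k`; for odd `k` these are all graphs of the class, so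
`d_k = val k`. For all `k ≥ 3` the value is a lower bound for `d_k`. -/
theorem result :
    (∀ k : ℕ, 3 ≤ k → val k ≤ d k) ∧
    (∀ k : ℕ, 1000 ≤ k → IsGreatest (ratiosEL k) (val k) ∧ (Odd k → d k = val k)) :=
  Pool.Agent.L0h26.CK.fin_all2 Pool.Agent.L0h91.JB.t_BAL Pool.Agent.L0h83.JB.rp2
    (Pool.Agent.L0h91.JB.t_RB Pool.Agent.L0h91.JB.t_BAL Pool.Agent.L0h83.JB.rp2)
    Pool.Agent.L0h9.JB.t_LOW Pool.Agent.L0h83.JB.ev Pool.Agent.L0h9.JB.t_EV2

end Pool.Agent.Results.MP_bb98d0_co.JudiciousBipartitions
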